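import Pool.Agent.Helper26.Fekete

/-!
# Logarithmic capacity by energies equals the transfinite diameter (compact sets)
-/

open MeasureTheory Filter Topology Set Real ProbabilityTheory
open scoped ENNReal NNReal

namespace Pool.Agent.Helper26.BK

open Pool.Agent.Helper26

/-- The **logarithmic capacity** of a set `E` in the plane: the supremum of
`exp (∬ log |x - y| dm(x) dm(y))` over the Borel probability measures `m` on `E` of finite
logarithmic energy (such a measure has no atoms), and `0` if there is none. -/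
noncomputable def logCap (E : Set ℂ) : ℝ :=
  sSup {c : ℝ | ∃ m : Measure E, IsProbabilityMeasure m ∧ (∀ x, m {x} = 0) ∧
    Integrable (fun p : E × E => Real.log ‖(p.1 : ℂ) - (p.2 : ℂ)‖) (m.prod m) ∧
    c = Real.exp (∫ p : E × E, Real.log ‖(p.1 : ℂ) - (p.2 : ℂ)‖ ∂(m.prod m))}

section upper

variable {E : Set ℂ}

theorem ae_prod_ne (m : Measure E) [IsProbabilityMeasure m] (hna : ∀ x, m {x} = 0) :
    ∀ᵐ p : E × E ∂(m.prod m), p.1 ≠ p.2 := by
  rw [ae_iff]
  have h0 : {a : E × E | ¬ a.1 ≠ a.2} = {a : E × E | a.1 = a.2} := by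
    ext a
    simp
  rw [h0]
  have hms : MeasurableSet {a : E × E | a.1 = a.2} :=
    (isClosed_eq continuous_fst continuous_snd).measurableSet
  rw [Measure.measure_prod_null hms]
  filter_upwards with x
  have h1 : Prod.mk x ⁻¹' {a : E × E | a.1 = a.2} = {x} := by
    ext y
    simp [eq_comm]
  rw [h1]
  exact hna x

theorem map_pair (m : Measure E) [IsProbabilityMeasure m] {N : ℕ} {i j : Fin N} (hij : i ≠ j) :
    (Measure.pi (fun _ : Fin N => m)).map (fun w => (w i, w j)) = m.prod m := by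
  have h1 : iIndepFun (fun (i : Fin N) (w : Fin N → E) => (id (w i) : E))
      (Measure.pi (fun _ : Fin N => m)) :=
    iIndepFun_pi (X := fun _ => id) (fun _ => aemeasurable_id)
  have h2 : IndepFun (fun w : Fin N → E => w i) (fun w : Fin N → E => w j)
      (Measure.pi (fun _ : Fin N => m)) := h1.indepFun hij
  rw [indepFun_iff_map_prod_eq_prod_map_map (measurable_pi_apply i).aemeasurable
    (measurable_pi_apply j).aemeasurable] at h2
  rw [h2]
  have h3 : ∀ k : Fin N, (Measure.pi (fun _ : Fin N => m)).map (fun w => w k) = m := by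
    intro k
    exact (measurePreserving_eval (fun _ : Fin N => m) k).map_eq
  rw [h3, h3]

theorem measurable_logker : Measurable (fun p : E × E => Real.log ‖(p.1 : ℂ) - (p.2 : ℂ)‖) := by
  apply Real.measurable_log.comp
  fun_prop

theorem sum_pairs (M : ℕ) (I : ℝ) :
    ∑ i : Fin (M + 2), ∑ _j ∈ Finset.Ioi i, I = ((M:ℝ) + 2) * ((M:ℝ) + 1) / 2 * I := by
  have h2 := Finset.sum_sum_Ioi_add_eq_sum_sum_off_diag (fun _ _ : Fin (M + 2) => I)
  have h3 : ∀ i : Fin (M + 2), ∑ j ∈ Finset.Ioi i, (I + I) = 2 * ∑ j ∈ Finset.Ioi i, I := by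
    intro i
    rw [Finset.mul_sum]
    apply Finset.sum_congr rfl
    intro j _
    ring
  simp_rw [h3, ← Finset.mul_sum] at h2
  have h4 : ∑ i : Fin (M + 2), ∑ j ∈ ({i} : Finset (Fin (M + 2)))ᶜ, I =
      ((M:ℝ) + 2) * ((M:ℝ) + 1) * I := by
    simp only [Finset.sum_const, Finset.card_compl, Finset.card_singleton, Fintype.card_fin,
      Finset.card_univ, nsmul_eq_mul]
    have : M + 2 - 1 = M + 1 := by omega
    rw [this]
    push_cast
    ring
  rw [h4] at h2
  linarith

theorem exp_energy_le_tdm (hE : IsCompact E) (m : Measure E) [IsProbabilityMeasure m]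
    (hna : ∀ x, m {x} = 0)
    (hint : Integrable (fun p : E × E => Real.log ‖(p.1 : ℂ) - (p.2 : ℂ)‖) (m.prod m)) (M : ℕ) :
    Real.exp (∫ p : E × E, Real.log ‖(p.1 : ℂ) - (p.2 : ℂ)‖ ∂(m.prod m)) ≤ tdm E M := by
  set P : Measure (Fin (M + 2) → E) := Measure.pi (fun _ : Fin (M + 2) => m) with hP
  set I : ℝ := ∫ p : E × E, Real.log ‖(p.1 : ℂ) - (p.2 : ℂ)‖ ∂(m.prod m) with hI
  set q : ℝ := (2:ℝ) / (((M:ℝ) + 2) * ((M:ℝ) + 1)) with hq
  have hq0 : 0 < q := by positivity
  set F : (Fin (M + 2) → E) → ℝ := fun w =>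
    ∑ i : Fin (M + 2), ∑ j ∈ Finset.Ioi i, Real.log ‖(w i : ℂ) - (w j : ℂ)‖ with hF
  have hmeas : ∀ i j : Fin (M + 2), Measurable (fun w : Fin (M + 2) → E => (w i, w j)) := by
    intro i j
    fun_prop
  have hint2 : ∀ i j : Fin (M + 2), i ≠ j →
      Integrable (fun w : Fin (M + 2) → E => Real.log ‖(w i : ℂ) - (w j : ℂ)‖) P := by
    intro i j hij
    have h1 := map_pair m hij
    rw [← h1, integrable_map_measure measurable_logker.aestronglyMeasurable
      (hmeas i j).aemeasurable] at hint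
    exact hint
  have hval : ∀ i j : Fin (M + 2), i ≠ j →
      ∫ w : Fin (M + 2) → E, Real.log ‖(w i : ℂ) - (w j : ℂ)‖ ∂P = I := by
    intro i j hij
    rw [hI, ← map_pair m hij, integral_map (hmeas i j).aemeasurable
      measurable_logker.aestronglyMeasurable]
  have hne : ∀ i : Fin (M + 2), ∀ j ∈ Finset.Ioi i, i ≠ j := fun i j hj =>
    (Finset.mem_Ioi.mp hj).ne
  have hFint : Integrable F P := by
    rw [hF]
    apply integrable_finsetSum
    intro i _
    apply integrable_finsetSum
    intro j hj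
    exact hint2 i j (hne i j hj)
  have hFval : ∫ w, F w ∂P = ((M:ℝ) + 2) * ((M:ℝ) + 1) / 2 * I := by
    rw [← sum_pairs, hF, integral_finsetSum]
    · apply Finset.sum_congr rfl
      intro i _
      rw [integral_finsetSum]
      · apply Finset.sum_congr rfl
        intro j hj
        exact hval i j (hne i j hj)
      · intro j hj
        exact hint2 i j (hne i j hj)
    · intro i _
      apply integrable_finsetSum
      intro j hj
      exact hint2 i j (hne i j hj)
  have hae : ∀ᵐ w ∂P, ∀ i j : Fin (M + 2), i ≠ j → w i ≠ w j := by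
    rw [ae_all_iff]
    intro i
    rw [ae_all_iff]
    intro j
    by_cases hij : i = j
    · filter_upwards with w h
      exact absurd hij h
    · have h1 := ae_prod_ne m hna
      rw [← map_pair m hij] at h1
      have h2 := ae_of_ae_map (hmeas i j).aemeasurable h1
      filter_upwards [h2] with w hw _
      exact hw
  have hexp : ∀ w : Fin (M + 2) → E, (∀ i j : Fin (M + 2), i ≠ j → w i ≠ w j) →
      Real.exp (F w * q) ≤ tdm E M := by
    intro w hw
    have h1 : Real.exp (F w * q) =
        (∏ i : Fin (M+2), ∏ j ∈ Finset.Ioi i, ‖(w i : ℂ) - (w j : ℂ)‖) ^ q := by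
      rw [Real.exp_mul, hF]
      congr 1
      rw [Real.exp_sum]
      apply Finset.prod_congr rfl
      intro i _
      rw [Real.exp_sum]
      apply Finset.prod_congr rfl
      intro j hj
      rw [Real.exp_log]
      rw [norm_pos_iff, sub_ne_zero]
      intro h
      exact hw i j (hne i j hj) (Subtype.ext h)
    rw [h1]
    exact le_tdm hE M (w := fun i => (w i : ℂ)) (fun i => (w i).2)
  have hpos : 0 < tdm E M := by
    obtain ⟨w, hw⟩ := hae.exists
    exact (Real.exp_pos _).trans_le (hexp w hw)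
  have hle : ∀ᵐ w ∂P, F w ≤ Real.log (tdm E M) / q := by
    filter_upwards [hae] with w hw
    rw [le_div_iff₀ hq0]
    exact (Real.le_log_iff_exp_le hpos).mpr (hexp w hw)
  have h5 : ∫ w, F w ∂P ≤ Real.log (tdm E M) / q := by
    have h6 := integral_mono_ae hFint (integrable_const (Real.log (tdm E M) / q)) hle
    simpa using h6
  rw [hFval, le_div_iff₀ hq0] at h5
  have h6 : ((M:ℝ) + 2) * ((M:ℝ) + 1) / 2 * I * q = I := by
    rw [hq]
    field_simp
  rw [h6] at h5
  exact (Real.le_log_iff_exp_le hpos).mp h5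

theorem tcap_nonneg (E : Set ℂ) : 0 ≤ tcap E := Real.iInf_nonneg (fun m => tdm_nonneg E m)

theorem exp_energy_le_tcap (hE : IsCompact E) (m : Measure E) [IsProbabilityMeasure m]
    (hna : ∀ x, m {x} = 0)
    (hint : Integrable (fun p : E × E => Real.log ‖(p.1 : ℂ) - (p.2 : ℂ)‖) (m.prod m)) :
    Real.exp (∫ p : E × E, Real.log ‖(p.1 : ℂ) - (p.2 : ℂ)‖ ∂(m.prod m)) ≤ tcap E :=
  le_ciInf (fun M => exp_energy_le_tdm hE m hna hint M)

theorem logCap_nonneg (E : Set ℂ) : 0 ≤ logCap E := by
  apply Real.sSup_nonneg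
  rintro c ⟨m, _, _, _, rfl⟩
  exact (Real.exp_pos _).le

theorem logCap_le_tcap (hE : IsCompact E) : logCap E ≤ tcap E := by
  apply Real.sSup_le _ (tcap_nonneg E)
  rintro c ⟨m, h1, h2, h3, rfl⟩
  exact exp_energy_le_tcap hE m h2 h3

end upper

end Pool.Agent.Helper26.BK
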