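import Pool.Agent.Helper26.BK.EnergyCap

/-!
# Logarithmic capacity by energies equals the transfinite diameter, second inequality
-/

open MeasureTheory Filter Topology Set Real ProbabilityTheory
open scoped ENNReal NNReal

namespace Pool.Agent.Helper26.BK

open Pool.Agent.Helper26

theorem integrable_of_compact {X : Type*} [TopologicalSpace X] [CompactSpace X]
    [MeasurableSpace X] [OpensMeasurableSpace X] (κ : Measure X) [IsFiniteMeasure κ]
    {f : X → ℝ} (hf : Continuous f) : Integrable f κ := by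
  have := (BoundedContinuousFunction.mkOfCompact (⟨f, hf⟩ : C(X, ℝ))).integrable κ
  exact this

theorem continuous_lk {ρ : ℝ} (hρ : 0 < ρ) {E : Set ℂ} :
    Continuous (fun p : E × E => lk ρ (p.1 : ℂ) (p.2 : ℂ)) := by
  unfold lk
  apply Continuous.log
  · fun_prop
  · intro p
    exact (lt_max_of_lt_right hρ).ne'

section

variable {E : Set ℂ}

/-- The empirical measure. -/
noncomputable def emp {N : ℕ} (x : Fin N → E) : Measure E :=
  (N : ℝ≥0∞)⁻¹ • ∑ i, Measure.dirac (x i)

theorem isProb_emp {N : ℕ} (hN : 0 < N) (x : Fin N → E) : IsProbabilityMeasure (emp x) := by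
  constructor
  unfold emp
  simp only [Measure.smul_apply, Measure.coe_finsetSum, Finset.sum_apply, measure_univ,
    Finset.sum_const, Finset.card_univ, Fintype.card_fin, nsmul_eq_mul, mul_one, smul_eq_mul]
  apply ENNReal.inv_mul_cancel
  · exact_mod_cast hN.ne'
  · exact ENNReal.natCast_ne_top N

theorem integral_emp {N : ℕ} [CompactSpace E] (x : Fin N → E) {f : E → ℝ} (hf : Continuous f) :
    ∫ y, f y ∂(emp x) = (N : ℝ)⁻¹ * ∑ i, f (x i) := by
  unfold emp
  rw [integral_smul_measure, integral_finsetSum_measure]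
  · simp
  · intro i _
    exact integrable_of_compact _ hf

theorem integral_emp_prod {N : ℕ} (hN : 0 < N) [CompactSpace E] (x : Fin N → E) {ρ : ℝ}
    (hρ : 0 < ρ) : ∫ p, lk ρ (p.1 : ℂ) (p.2 : ℂ) ∂((emp x).prod (emp x)) =
      ((N : ℝ)⁻¹) ^ 2 * dbl ρ (fun i => (x i : ℂ)) := by
  have := isProb_emp hN x
  have hc := continuous_lk hρ (E := E)
  rw [integral_prod _ (integrable_of_compact _ hc)]
  have h1 : ∀ y : E, ∫ y', lk ρ (y : ℂ) (y' : ℂ) ∂(emp x) =
      (N : ℝ)⁻¹ * ∑ j, lk ρ (y : ℂ) (x j : ℂ) := by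
    intro y
    exact integral_emp x (hc.comp (Continuous.prodMk continuous_const continuous_id))
  simp only [h1]
  rw [integral_emp x (f := fun y : E => (N : ℝ)⁻¹ * ∑ j, lk ρ (y : ℂ) (x j : ℂ))]
  · unfold dbl
    rw [← Finset.mul_sum]
    ring
  · apply Continuous.mul continuous_const
    apply continuous_finsetSum
    intro j _
    exact hc.comp (Continuous.prodMk continuous_id continuous_const)

/-- The truncated energy as a function of the measure. -/
noncomputable def Phi (ρ : ℝ) (m : ProbabilityMeasure E) : ℝ :=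
  ∫ p : E × E, lk ρ (p.1 : ℂ) (p.2 : ℂ) ∂((m : Measure E).prod (m : Measure E))

theorem continuous_Phi [CompactSpace E] {ρ : ℝ} (hρ : 0 < ρ) : Continuous (Phi (E := E) ρ) := by
  have h1 : Continuous (fun m : ProbabilityMeasure E => m.prod m) :=
    ProbabilityMeasure.continuous_prod.comp (Continuous.prodMk continuous_id continuous_id)
  have h2 := (ProbabilityMeasure.continuous_integral_boundedContinuousFunction
    (BoundedContinuousFunction.mkOfCompact
      (⟨fun p : E × E => lk ρ (p.1 : ℂ) (p.2 : ℂ), continuous_lk hρ⟩ : C(E × E, ℝ)))).comp h1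
  exact h2

theorem Phi_mono [CompactSpace E] {ρ ρ' : ℝ} (hρ : 0 < ρ) (h : ρ ≤ ρ') (m : ProbabilityMeasure E) :
    Phi ρ m ≤ Phi ρ' m := by
  unfold Phi
  apply integral_mono (integrable_of_compact _ (continuous_lk hρ))
    (integrable_of_compact _ (continuous_lk (hρ.trans_le h)))
  intro p
  unfold lk
  exact Real.log_le_log (lt_max_of_lt_right hρ) (max_le_max le_rfl h)

theorem nonempty_of_tcap_pos (h : 0 < tcap E) : E.Nonempty := by
  by_contra hE
  rw [Set.not_nonempty_iff_eq_empty] at hE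
  subst hE
  have h1 := tcap_le (∅ : Set ℂ) 0
  have h2 : tdm (∅ : Set ℂ) 0 = 0 := by
    unfold tdm
    have : IsEmpty (Fin (0 + 2) → (∅ : Set ℂ)) := by
      constructor
      intro f
      exact (f 0).2
    exact Real.iSup_of_isEmpty _
  linarith

theorem exists_limit (hE : IsCompact E) (hcap : 0 < tcap E) {τ : ℝ} (hτ : 0 < τ) :
    ∃ (m : ProbabilityMeasure E) (ρ : ℕ → ℝ), (∀ j, 0 < ρ j) ∧ (∀ j, ρ (j + 1) ≤ ρ j) ∧
      (∀ j, ρ j ≤ 1) ∧ Tendsto ρ atTop (𝓝 0) ∧
      ∀ j, Real.log (tcap E) - τ ≤ Phi (ρ j) m := by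
  have : CompactSpace E := isCompact_iff_compactSpace.mp hE
  obtain ⟨ρ₀, hρ₀, hfek⟩ := fekete hE (nonempty_of_tcap_pos hcap) hcap hτ
  set c : ℝ := min (ρ₀ / 2) 1 with hc
  have hc0 : 0 < c := by positivity
  have hc1 : c < ρ₀ := by
    have : c ≤ ρ₀ / 2 := min_le_left _ _
    linarith
  set ρ : ℕ → ℝ := fun j => c / ((j : ℝ) + 1) with hρdef
  have hρpos : ∀ j, 0 < ρ j := fun j => by
    rw [hρdef]
    positivity
  have hρanti : ∀ j, ρ (j + 1) ≤ ρ j := by
    intro j
    simp only [hρdef]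
    push_cast
    apply div_le_div_of_nonneg_left hc0.le (by positivity)
    linarith
  have hρc : ∀ j, ρ j ≤ c := by
    intro j
    simp only [hρdef]
    apply div_le_self hc0.le
    have : (0 : ℝ) ≤ j := by positivity
    linarith
  have hlim : Tendsto ρ atTop (𝓝 0) := by
    have h1 := tendsto_one_div_add_atTop_nhds_zero_nat (𝕜 := ℝ)
    have h2 := h1.const_mul c
    rw [mul_zero] at h2
    refine h2.congr ?_
    intro j
    simp only [hρdef]
    ring
  set t : ℕ → Set (ProbabilityMeasure E) := fun j => {m | Real.log (tcap E) - τ ≤ Phi (ρ j) m}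
    with ht
  have hcl : ∀ j, IsClosed (t j) := fun j =>
    isClosed_le continuous_const (continuous_Phi (hρpos j))
  have hne : ∀ j, (t j).Nonempty := by
    intro j
    obtain ⟨N, hN, w, hw, _, hen⟩ := hfek (ρ j) (hρpos j) ((hρc j).trans_lt hc1)
    set x : Fin N → E := fun i => ⟨w i, hw i⟩ with hx
    refine ⟨⟨emp x, isProb_emp hN x⟩, ?_⟩
    have h1 := integral_emp_prod hN x (hρpos j)
    change Real.log (tcap E) - τ ≤ ∫ p : E × E, lk (ρ j) (p.1 : ℂ) (p.2 : ℂ)
      ∂((emp x).prod (emp x))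
    rw [h1]
    have h2 : (fun i => (x i : ℂ)) = w := by
      funext i
      rfl
    rw [h2]
    linarith
  have hmono : ∀ j, t (j + 1) ⊆ t j := by
    intro j m hm
    exact le_trans hm (Phi_mono (hρpos (j + 1)) (hρanti j) m)
  obtain ⟨m, hm⟩ := IsCompact.nonempty_iInter_of_sequence_nonempty_isCompact_isClosed t hmono hne
    (hcl 0).isCompact hcl
  rw [mem_iInter] at hm
  exact ⟨m, ρ, hρpos, hρanti, fun j => (hρc j).trans (min_le_right _ _), hlim, hm⟩

theorem exists_measure (hE : IsCompact E) (hcap : 0 < tcap E) {τ : ℝ} (hτ : 0 < τ) :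
    ∃ m : Measure E, IsProbabilityMeasure m ∧ (∀ x, m {x} = 0) ∧
      Integrable (fun p : E × E => Real.log ‖(p.1 : ℂ) - (p.2 : ℂ)‖) (m.prod m) ∧
      Real.log (tcap E) - τ ≤ ∫ p : E × E, Real.log ‖(p.1 : ℂ) - (p.2 : ℂ)‖ ∂(m.prod m) := by
  have : CompactSpace E := isCompact_iff_compactSpace.mp hE
  obtain ⟨m, ρ, hρpos, hρanti, hρ1, hlim, hm⟩ := exists_limit hE hcap hτ
  obtain ⟨D, hD1, hD⟩ : ∃ D : ℝ, 1 ≤ D ∧ ∀ p : E × E, ‖(p.2 : ℂ) - (p.1 : ℂ)‖ ≤ D := by
    obtain ⟨B, hB⟩ := hE.isBounded.exists_norm_le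
    refine ⟨max 1 (B + B), le_max_left _ _, ?_⟩
    intro p
    refine le_trans ?_ (le_max_right _ _)
    refine (norm_sub_le _ _).trans ?_
    exact add_le_add (hB _ p.2.2) (hB _ p.1.2)
  have hD0 : 0 < D := by linarith
  set κ : Measure (E × E) := (m : Measure E).prod (m : Measure E) with hκ
  set C : ℝ := Real.log D - Real.log (tcap E) + τ with hC
  set g : ℕ → E × E → ℝ≥0∞ := fun j p =>
    ENNReal.ofReal (Real.log D - lk (ρ j) (p.1 : ℂ) (p.2 : ℂ)) with hg
  have hlk : ∀ j (p : E × E), lk (ρ j) (p.1 : ℂ) (p.2 : ℂ) ≤ Real.log D := by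
    intro j p
    unfold lk
    apply Real.log_le_log (lt_max_of_lt_right (hρpos j))
    exact max_le (hD p) ((hρ1 j).trans hD1)
  have hgint : ∀ j, ∫⁻ p, g j p ∂κ ≤ ENNReal.ofReal C := by
    intro j
    have hi : Integrable (fun p : E × E => Real.log D - lk (ρ j) (p.1 : ℂ) (p.2 : ℂ)) κ :=
      integrable_of_compact _ (continuous_const.sub (continuous_lk (hρpos j)))
    rw [hg, ← ofReal_integral_eq_lintegral_ofReal hi]
    · apply ENNReal.ofReal_le_ofReal
      rw [integral_sub (integrable_const _) (integrable_of_compact _ (continuous_lk (hρpos j)))]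
      have h1 := hm j
      unfold Phi at h1
      simp only [integral_const, probReal_univ, smul_eq_mul, one_mul]
      linarith
    · filter_upwards with p
      have := hlk j p
      simp only [Pi.zero_apply]
      linarith
  have hgmeas : ∀ j, Measurable (g j) := by
    intro j
    exact ((continuous_const.sub (continuous_lk (hρpos j))).measurable).ennreal_ofReal
  have hgmono : Monotone g := by
    apply monotone_nat_of_le_succ
    intro j p
    simp only [hg]
    apply ENNReal.ofReal_le_ofReal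
    have : lk (ρ (j + 1)) (p.1 : ℂ) (p.2 : ℂ) ≤ lk (ρ j) (p.1 : ℂ) (p.2 : ℂ) := by
      unfold lk
      exact Real.log_le_log (lt_max_of_lt_right (hρpos _)) (max_le_max le_rfl (hρanti j))
    linarith
  have hsup : ∫⁻ p, ⨆ j, g j p ∂κ ≤ ENNReal.ofReal C := by
    rw [lintegral_iSup hgmeas hgmono]
    exact iSup_le hgint
  have hfin : ∀ᵐ p ∂κ, ⨆ j, g j p < ⊤ := by
    apply ae_lt_top (Measurable.iSup hgmeas)
    exact ne_top_of_le_ne_top ENNReal.ofReal_ne_top hsup
  -- on the diagonal the supremum is infinite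
  have hdiag : ∀ x : E, ⨆ j, g j (x, x) = ⊤ := by
    intro x
    rw [iSup_eq_top]
    intro b hb
    have h1 : Tendsto (fun j => Real.log D - Real.log (ρ j)) atTop atTop := by
      have h2 : Tendsto ρ atTop (𝓝[>] 0) :=
        tendsto_nhdsWithin_iff.mpr ⟨hlim, Eventually.of_forall hρpos⟩
      have h3 := Real.tendsto_log_nhdsGT_zero.comp h2
      have h4 := tendsto_neg_atBot_atTop.comp h3
      have h5 := tendsto_atTop_add_const_left atTop (Real.log D) h4
      refine h5.congr ?_
      intro j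
      simp only [Function.comp_apply]
      ring
    obtain ⟨j, hj⟩ := (h1.eventually_gt_atTop b.toReal).exists
    refine ⟨j, ?_⟩
    simp only [hg]
    rw [lk_self (hρpos j)]
    exact (ENNReal.lt_ofReal_iff_toReal_lt hb.ne).mpr hj
  have hne : ∀ᵐ p ∂κ, p.1 ≠ p.2 := by
    filter_upwards [hfin] with p hp h
    have h1 : p = (p.1, p.1) := by
      ext
      · rfl
      · rw [h]
    rw [h1, hdiag] at hp
    exact lt_irrefl _ hp
  have hna : ∀ x : E, (m : Measure E) {x} = 0 := by
    intro x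
    have h1 : κ {(x, x)} = 0 := by
      have h2 : κ {p : E × E | ¬ p.1 ≠ p.2} = 0 := ae_iff.mp hne
      apply measure_mono_null _ h2
      intro p hp
      rw [mem_singleton_iff] at hp
      simp [hp]
    rw [hκ, ← Set.singleton_prod_singleton, Measure.prod_prod] at h1
    exact mul_self_eq_zero.mp h1
  -- off the diagonal
  have hoff : ∀ᵐ p ∂κ, ENNReal.ofReal (Real.log D - Real.log ‖(p.1 : ℂ) - (p.2 : ℂ)‖) ≤
      ⨆ j, g j p := by
    filter_upwards [hne] with p hp
    have hpos : 0 < ‖(p.2 : ℂ) - (p.1 : ℂ)‖ := by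
      rw [norm_pos_iff, sub_ne_zero]
      intro h
      exact hp (Subtype.ext h.symm)
    obtain ⟨j, hj⟩ := (hlim.eventually (gt_mem_nhds hpos)).exists
    refine le_trans ?_ (le_iSup _ j)
    simp only [hg]
    apply ENNReal.ofReal_le_ofReal
    have : lk (ρ j) (p.1 : ℂ) (p.2 : ℂ) = Real.log ‖(p.1 : ℂ) - (p.2 : ℂ)‖ := by
      unfold lk
      rw [max_eq_left hj.le, norm_sub_rev]
    rw [this]
  have hnn : 0 ≤ᵐ[κ] fun p : E × E => Real.log D - Real.log ‖(p.1 : ℂ) - (p.2 : ℂ)‖ := by
    filter_upwards [hne] with p hp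
    have hpos : 0 < ‖(p.1 : ℂ) - (p.2 : ℂ)‖ := by
      rw [norm_pos_iff, sub_ne_zero]
      intro h
      exact hp (Subtype.ext h)
    have h1 : Real.log ‖(p.1 : ℂ) - (p.2 : ℂ)‖ ≤ Real.log D := by
      apply Real.log_le_log hpos
      rw [norm_sub_rev]
      exact hD p
    simp only [Pi.zero_apply]
    linarith
  have hbound : ∫⁻ p : E × E, ENNReal.ofReal (Real.log D - Real.log ‖(p.1 : ℂ) - (p.2 : ℂ)‖) ∂κ ≤
      ENNReal.ofReal C := (lintegral_mono_ae hoff).trans hsup
  have hmeas : Measurable (fun p : E × E => Real.log D - Real.log ‖(p.1 : ℂ) - (p.2 : ℂ)‖) :=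
    measurable_const.sub measurable_logker
  have hint : Integrable (fun p : E × E => Real.log D - Real.log ‖(p.1 : ℂ) - (p.2 : ℂ)‖) κ := by
    refine ⟨hmeas.aestronglyMeasurable, ?_⟩
    rw [hasFiniteIntegral_iff_ofReal hnn]
    exact hbound.trans_lt ENNReal.ofReal_lt_top
  have hint2 : Integrable (fun p : E × E => Real.log ‖(p.1 : ℂ) - (p.2 : ℂ)‖) κ := by
    have h1 := (integrable_const (Real.log D)).sub hint
    refine h1.congr ?_
    filter_upwards with p
    simp
  refine ⟨m, inferInstance, hna, hint2, ?_⟩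
  have h1 : ∫ p : E × E, (Real.log D - Real.log ‖(p.1 : ℂ) - (p.2 : ℂ)‖) ∂κ ≤ C := by
    rw [integral_eq_lintegral_of_nonneg_ae hnn hmeas.aestronglyMeasurable]
    have hC0 : 0 ≤ C ∨ C < 0 := le_or_gt 0 C
    rcases hC0 with hC0 | hC0
    · exact ENNReal.toReal_le_of_le_ofReal hC0 hbound
    · exfalso
      have h2 := hm 0
      unfold Phi at h2
      have h3 : ∫ p : E × E, lk (ρ 0) (p.1 : ℂ) (p.2 : ℂ) ∂κ ≤ ∫ p : E × E, Real.log D ∂κ :=
        integral_mono (integrable_of_compact _ (continuous_lk (hρpos 0))) (integrable_const _)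
          (hlk 0)
      simp only [integral_const, probReal_univ, smul_eq_mul, one_mul] at h3
      linarith
  rw [integral_sub (integrable_const _) hint2] at h1
  simp only [integral_const, probReal_univ, smul_eq_mul, one_mul] at h1
  linarith

/-- **Fekete–Szegő**: for a compact set the logarithmic capacity is the transfinite diameter. -/
theorem logCap_eq_tcap (hE : IsCompact E) : logCap E = tcap E := by
  apply le_antisymm (logCap_le_tcap hE)
  rcases (tcap_nonneg E).eq_or_lt with h0 | h0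
  · rw [← h0]
    exact logCap_nonneg E
  · have hb : BddAbove {c : ℝ | ∃ m : Measure E, IsProbabilityMeasure m ∧ (∀ x, m {x} = 0) ∧
        Integrable (fun p : E × E => Real.log ‖(p.1 : ℂ) - (p.2 : ℂ)‖) (m.prod m) ∧
        c = Real.exp (∫ p : E × E, Real.log ‖(p.1 : ℂ) - (p.2 : ℂ)‖ ∂(m.prod m))} := by
      refine ⟨tcap E, ?_⟩
      rintro c ⟨m, h1, h2, h3, rfl⟩
      exact exp_energy_le_tcap hE m h2 h3
    have h1 : ∀ τ > 0, tcap E * Real.exp (-τ) ≤ logCap E := by
      intro τ hτ
      obtain ⟨m, hm1, hm2, hm3, hm4⟩ := exists_measure hE h0 hτ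
      have h2 : Real.exp (∫ p : E × E, Real.log ‖(p.1 : ℂ) - (p.2 : ℂ)‖ ∂(m.prod m)) ≤ logCap E :=
        le_csSup hb ⟨m, hm1, hm2, hm3, rfl⟩
      refine le_trans ?_ h2
      calc tcap E * Real.exp (-τ) = Real.exp (Real.log (tcap E) - τ) := by
            rw [sub_eq_add_neg, Real.exp_add, Real.exp_log h0]
        _ ≤ _ := Real.exp_le_exp.mpr hm4
    have h2 : Tendsto (fun τ : ℝ => tcap E * Real.exp (-τ)) (𝓝[>] 0) (𝓝 (tcap E)) := by
      have h3 : Continuous (fun τ : ℝ => tcap E * Real.exp (-τ)) := by fun_prop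
      have h4 := (h3.tendsto 0).mono_left (nhdsWithin_le_nhds (s := Ioi (0:ℝ)))
      simpa using h4
    apply le_of_tendsto h2
    filter_upwards [self_mem_nhdsWithin] with τ hτ
    exact h1 τ hτ

end

end Pool.Agent.Helper26.BK
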